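import Pool.Agent.OST_h95.Final2

/-!
# Freiman-Ruzsa over the integers with polynomial cost in `O(log K)` dimensions

For every `ε > 0`: a finite set `A` of integers with `|A + A| ≤ K |A|` is covered by at most
`C K ^ C |A| / N` translates of a proper convex progression of dimension at most `C (1 + log K)`
with `N` points, `exp (-C (1 + log K) ^ (1 + ε)) |A| ≤ N ≤ |A|`.

Outline of the proof.  All entropies are conditional Shannon entropies of finite families of laws.
Let `X` be uniform on `A` (in `ZMod M`) and `T` a near-minimiser of
`H(T - T') - H(T) + lam (2 H(X + T) - H(X) - H(T))`, `lam` small in terms of `ε`.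
1. Short translates of `T` (in Hellinger distance) act as near-homomorphisms (strong convexity of
   `x log x` and an exact fine value of the functional), and at most `exp (C log K)` of them can be
   separated at any small scale (a system of orthonormalised near-homomorphisms gives random bits
   whose entropy is bounded above by the information of few differences of `T`).
2. The information of `n` differences of `T` decreases like `1 / n ^ (1 - ε)`, so that the Hellinger
   ball of radius `(log K) ^ (-4)` has at least `exp (-C (log K) ^ (1 + ε)) |A|` points, and `A`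
   absorbs it at cost `K ^ C` because `H(X + T) ≤ H(X) + C log K`.
3. The balls of radius `2 ^ (-i)` times this one form a system of dimension `O(log K)`; a Bohr set
   of the same size lies between two of them, and the geometry of numbers gives the convex body.
-/

set_option autoImplicit false
open scoped Pointwise

namespace Pool.Agent.Results.MP_626a77_co.EfficientCovering

/-- Efficient covering by a proper convex progression of dimension `O(log K)`: the number of
translates is at most `C K ^ C |A| / N`, where `N ≥ exp (-C (1 + log K) ^ (1 + ε)) |A|` is the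
number of lattice points of the body. -/
theorem result (ε : ℝ) (hε : 0 < ε) :
    ∃ C : ℝ, 0 < C ∧ ∀ (K : ℝ) (A : Finset ℤ), A.Nonempty →
      (((A + A).card : ℝ) ≤ K * (A.card : ℝ)) →
      ∃ (d : ℕ) (B : Set (Fin d → ℝ)) (v : Fin d → ℤ) (T : Finset ℤ) (N : ℕ),
        (d : ℝ) ≤ C * (1 + Real.log K) ∧
        Convex ℝ B ∧ IsCompact B ∧ (interior B).Nonempty ∧ (∀ x ∈ B, -x ∈ B) ∧
        N = {x : Fin d → ℤ | (fun i => (x i : ℝ)) ∈ B}.ncard ∧
        N ≤ A.card ∧ (A.card : ℝ) ≤ Real.exp (C * (1 + Real.log K) ^ (1 + ε)) * N ∧
        (T.card : ℝ) * N ≤ C * K ^ C * A.card ∧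
        (∀ x y : Fin d → ℤ, (fun i => (x i : ℝ)) ∈ B → (fun i => (y i : ℝ)) ∈ B →
          ∑ i, v i * x i = ∑ i, v i * y i → x = y) ∧
        ∀ a ∈ A, ∃ t ∈ T, ∃ x : Fin d → ℤ,
          (fun i => (x i : ℝ)) ∈ B ∧ a = t + ∑ i, v i * x i :=
  Pool.Agent.OST.efficient ε hε

end Pool.Agent.Results.MP_626a77_co.EfficientCovering
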