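import Pool.Agent.W_626a77_h42.Final

/-!
Polynomial Freiman-Ruzsa over the integers for iterated sumsets.

The conclusion of the polynomial Freiman-Ruzsa conjecture over `ℤ` holds for all sets whose `m`-fold
sumset has at most `K |A|` elements, where `m` is only a small power of `log K`.

Proof.  By pigeonhole there is a scale `2 ^ i ≤ m / 2` at which the sumset `2 ^ i A` has doubling at
most `K ^ (1 / log₂ m)`; the quasi-optimal theorem (`exp (O(log K' (1 + log log K')))` translates in
dimension `O(log K')`) is applied there with `K' = K ^ (1 / log₂ m)`; the body found in this way has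
at most `K |A|` lattice points, and the shrinking lemma replaces it by a dilate with at most `|A|`
lattice points, at the cost of a factor `125 ^ d K` in the number of translates.
-/

set_option autoImplicit false

namespace Pool.Agent.Results.MP_626a77_co.IteratedSumsets

/-- For every `ε > 0` there is `C > 0` such that: if `m ≥ 2`, `m ≥ (1 + log K) ^ ε` and the set of
all sums of `m` elements of the finite nonempty `A ⊆ ℤ` has at most `K |A|` elements, then `A` is
covered by at most `C K ^ C` translates of a linear image of the lattice points of a symmetric convex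
body in dimension at most `C (1 + log K / log m)` having at most `|A|` lattice points. -/
theorem result (ε : ℝ) (hε : 0 < ε) :
    ∃ C : ℝ, 0 < C ∧ ∀ (m : ℕ) (K : ℝ) (A : Finset ℤ), 2 ≤ m → (1 + Real.log K) ^ ε ≤ m →
      A.Nonempty →
      ((((Fintype.piFinset fun _ : Fin m => A).image fun f => ∑ i, f i).card : ℝ) ≤
        K * (A.card : ℝ)) →
      ∃ (d : ℕ) (B : Set (Fin d → ℝ)) (v : Fin d → ℤ) (T : Finset ℤ),
        (d : ℝ) ≤ C * (1 + Real.log K / Real.log m) ∧
        Convex ℝ B ∧ IsCompact B ∧ (interior B).Nonempty ∧ (∀ x ∈ B, -x ∈ B) ∧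
        ({x : Fin d → ℤ | (fun i => (x i : ℝ)) ∈ B}.ncard ≤ A.card) ∧
        ((T.card : ℝ) ≤ C * K ^ C) ∧
        ∀ a ∈ A, ∃ t ∈ T, ∃ x : Fin d → ℤ,
          (fun i => (x i : ℝ)) ∈ B ∧ a = t + ∑ i, v i * x i :=
  Pool.Agent.W_626a77_h42.polynomial ε hε

end Pool.Agent.Results.MP_626a77_co.IteratedSumsets
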