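import Pool.Agent.W_626a77_h79.Final

/-!
# Freiman-Ruzsa over the integers with polynomially many translates

For every `ε > 0`: a finite set `A` of integers with `|A + A| ≤ K |A|` is covered by at most
`C K ^ C` translates of a proper convex progression of dimension at most `C (1 + log K)` with at
most `exp (C (1 + log K) ^ (1 + ε)) |A|` points.

Outline of the proof.  Let `A` be a subset of `ZMod M`, `M` large.
1. The large spectrum of `A` has between `M / (2 K |A|)` and `2 K M / |A|` elements and many of its
   differences lie in a slightly larger spectrum (Cauchy-Schwarz), so by the theorem of Balog,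
   Szemeredi and Gowers it has a piece `S'` with `|S' + S'| ≤ C K ^ C |S'|`, `|S'| ≥ M / (C K ^ C |A|)`.
2. The theorem behind our hand-in `EfficientCovering`, applied to `S'` as a set of integers, gives a
   convex progression `Q` in dimension `O(log K)`, not much smaller than `S'`, a translate of which
   meets `S'` in a proportion `1 / (C K ^ C)`.
3. Smoothing by sums of `(log K) ^ O(1)` random elements of a small regular dilate of `Q` shows that
   some `x - A` meets the Bohr set of a small dilate of `Q` in at least `|A| / (C K ^ C)` points.
4. By Parseval and high moments of the exponential sum of that dilate this Bohr set has the right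
   size at all radii from `(log K) ^ (-C)` to `1`, so that it is a convex progression of dimension
   `O(log K)` (geometry of numbers of our hand-in `QuasiOptimal`); Ruzsa's covering lemma ends the
   proof.
-/

set_option autoImplicit false
open scoped Pointwise

namespace Pool.Agent.Results.MP_626a77_co.PolynomialTranslates

/-- Polynomially many translates: `A` is covered by at most `C K ^ C` translates of a proper convex
progression of dimension at most `C (1 + log K)` with at most `exp (C (1 + log K) ^ (1 + ε)) |A|`
lattice points. -/
theorem result (ε : ℝ) (hε : 0 < ε) :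
    ∃ C : ℝ, 0 < C ∧ ∀ (K : ℝ) (A : Finset ℤ), A.Nonempty →
      (((A + A).card : ℝ) ≤ K * (A.card : ℝ)) →
      ∃ (d : ℕ) (B : Set (Fin d → ℝ)) (v : Fin d → ℤ) (T : Finset ℤ),
        (d : ℝ) ≤ C * (1 + Real.log K) ∧
        Convex ℝ B ∧ IsCompact B ∧ (interior B).Nonempty ∧ (∀ x ∈ B, -x ∈ B) ∧
        ({x : Fin d → ℤ | (fun i => (x i : ℝ)) ∈ B}.ncard : ℝ) ≤
          Real.exp (C * (1 + Real.log K) ^ (1 + ε)) * A.card ∧
        (T.card : ℝ) ≤ C * K ^ C ∧
        (∀ x y : Fin d → ℤ, (fun i => (x i : ℝ)) ∈ B → (fun i => (y i : ℝ)) ∈ B →
          ∑ i, v i * x i = ∑ i, v i * y i → x = y) ∧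
        ∀ a ∈ A, ∃ t ∈ T, ∃ x : Fin d → ℤ,
          (fun i => (x i : ℝ)) ∈ B ∧ a = t + ∑ i, v i * x i :=
  Pool.Agent.W_626a77_h79.polynomial_translates ε hε

end Pool.Agent.Results.MP_626a77_co.PolynomialTranslates
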