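import Mathlib
import Pool.Agent.W_626a77_h48.Adapter

/-!
Freiman-Ruzsa over the integers with `O(log K)` dimension and `exp (O(log K loglog K))` translates.

Outline of the proof.  All entropies are conditional Shannon entropies of finite families of laws
(`Fam`).
1. (Regularisation, `exists_reg_min`.)  For `X` uniform on `A` and `n ~ log log K`, minimise
   `H[T + T'] - H[T] + (H[X] - H[T]) / n` over the conditionings `T` of `X`.  Testing with the fibre
   of `T` in the sum of `m` more copies gives, by submodularity, a conditioning `T` of `X` with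
   `H[T] ≥ H[X] - O(n log K)` and `H[sum of 2^n copies of T] - H[T] ≤ O(n log K)`.
2. (Fourier part, `core`.)  The large spectrum of the sum of `2^{n₁}` copies defines a Bohr set
   which grows by at most `exp (O(n log K))` when its radius grows from `4^{-ν}` to `1`, has the size
   of `A` up to the same factor, has a translate meeting `A` in a proportion
   `exp (-O(n log K))`, and lies in `l A - l A` with `l ≤ 2^{10 ν}`.
3. (Geometry of numbers, files of helper71.)  In `ZMod M`, `M` large, such a Bohr set gives a
   lattice in which dimension, size and covering numbers are controlled: dimension `O(log K)`.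
-/

set_option autoImplicit false
open scoped Pointwise

namespace Pool.Agent.Results.MP_626a77_co.QuasiOptimal

/-- Quasi-optimal Freiman-Ruzsa over `ℤ`: there is an absolute constant `C > 0` such that every
finite nonempty `A ⊆ ℤ` with `|A + A| ≤ K |A|` is covered by at most
`exp (C (1 + log K) (1 + log (1 + log K)))` translates of a linear image of the lattice points of a
symmetric convex body in dimension at most `C (1 + log K)` having at most `|A|` lattice points. -/
theorem result :
    ∃ C : ℝ, 0 < C ∧ ∀ (K : ℝ) (A : Finset ℤ), A.Nonempty →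
      (((A + A).card : ℝ) ≤ K * (A.card : ℝ)) →
      ∃ (d : ℕ) (B : Set (Fin d → ℝ)) (v : Fin d → ℤ) (T : Finset ℤ),
        (d : ℝ) ≤ C * (1 + Real.log K) ∧
        Convex ℝ B ∧ IsCompact B ∧ (interior B).Nonempty ∧ (∀ x ∈ B, -x ∈ B) ∧
        ({x : Fin d → ℤ | (fun i => (x i : ℝ)) ∈ B}.ncard ≤ A.card) ∧
        ((T.card : ℝ) ≤ Real.exp (C * (1 + Real.log K) * (1 + Real.log (1 + Real.log K)))) ∧
        ∀ a ∈ A, ∃ t ∈ T, ∃ x : Fin d → ℤ,
          (fun i => (x i : ℝ)) ∈ B ∧ a = t + ∑ i, v i * x i :=
  Pool.Agent.QFR.quasi_optimal

end Pool.Agent.Results.MP_626a77_co.QuasiOptimal
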